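import Pool.Agent.MBX.Stmts

/-! MBX, row MAG (helper41): the magnetic bound. -/

set_option autoImplicit false

open MeasureTheory Complex

namespace Pool.Agent.MBX.H41

open Pool.Agent.Helper49_Pauli

theorem VV_cont {cut L : ℝ} (alpha : ℝ) (P : Polarization L) (y : Mode cut L → ℝ) (j : Fin 3) :
    Continuous fun x => VV alpha P y x j := by
  unfold VV dot
  fun_prop

theorem cv_cont (V : X3 → X3) (j : Fin 3) (hV : Continuous fun x => V x j) (f : X3 → ℂ)
    (hf : CS f) : Continuous (cv V j f) ∧ HasCompactSupport (cv V j f) := by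
  constructor
  · unfold cv
    have h1 : Continuous fun x => fderiv ℝ f x (Pi.single j 1) :=
      (hf.1.continuous_fderiv (by simp)).clm_apply continuous_const
    exact (continuous_const.mul h1).add ((Complex.continuous_ofReal.comp hV).mul hf.1.continuous)
  · have h1 : HasCompactSupport fun x => fderiv ℝ f x (Pi.single j 1) :=
      hf.2.fderiv_apply (𝕜 := ℝ) _
    exact (h1.mul_left).add (hf.2.mul_left)

theorem int_sq (g : X3 → ℂ) (hg : Continuous g) (hc : HasCompactSupport g) :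
    Integrable fun x => ‖g x‖ ^ 2 := by
  apply Continuous.integrable_of_hasCompactSupport
  · exact hg.norm.pow 2
  · exact hc.comp_left (g := fun z : ℂ => ‖z‖ ^ 2) (by simp)

/-- the numerical part: `m, e` the mass and the energy -/
theorem mag_num (α cut L M S nn m e w l : ℝ) (hα : 0 < α) (hL : 0 < L) (hl : l = L * cut)
    (hl1 : 2 * Real.pi < l) (hM : 1 ≤ M) (hS : 0 ≤ S) (hnn : 0 ≤ nn) (hSn : nn ≤ S ^ 2)
    (hm : 0 ≤ m) (he : 0 ≤ e) (hw : 0 ≤ w) (hww : w ^ 2 = m * e)
    (h : Real.sqrt α * S * m / L ^ 2 ≤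
      M * (3 * (e + 2 * cut * w) + Real.sqrt α * S * cut ^ 2 * (L * w / Real.pi))) :
    (min 1 α / 324) / (M ^ 2 * l ^ 6) * cut ^ 2 * (nn / (1 + nn)) * m ≤ e := by
  have hpi := Real.pi_gt_three
  have hl3 : 1 ≤ l := by linarith
  have hlpos : 0 < l := by linarith
  have hcut : 0 < cut := by
    rw [hl] at hlpos
    exact (pos_iff_pos_of_mul_pos hlpos).1 hL
  rcases hm.lt_or_eq with hm0 | hm0
  swap
  · rw [← hm0, mul_zero]; exact he
  set ε : ℝ := w / (cut * m) with hε
  have hcm : 0 < cut * m := mul_pos hcut hm0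
  have hwε : w = cut * m * ε := by rw [hε]; field_simp
  have hε0 : 0 ≤ ε := div_nonneg hw hcm.le
  have heε : e = cut ^ 2 * m * ε ^ 2 := by
    have h1 : m * e = m * (cut ^ 2 * m * ε ^ 2) := by rw [← hww, hwε]; ring
    exact mul_left_cancel₀ hm0.ne' h1
  have hcl : cut = l / L := by rw [hl]; field_simp
  set A : ℝ := Real.sqrt α with hA
  have hA0 : 0 ≤ A := Real.sqrt_nonneg _
  have hA2 : A ^ 2 = α := Real.sq_sqrt hα.le
  -- divide by m cut ^ 2
  have h2 : A * S / l ^ 2 ≤ M * (3 * ε ^ 2 + 6 * ε + A * S * (l * ε / Real.pi)) := by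
    have h3 : A * S * m / L ^ 2 = (A * S / l ^ 2) * (cut ^ 2 * m) := by
      rw [hl]; field_simp
    have h4 : M * (3 * (e + 2 * cut * w) + A * S * cut ^ 2 * (L * w / Real.pi)) =
        M * (3 * ε ^ 2 + 6 * ε + A * S * (l * ε / Real.pi)) * (cut ^ 2 * m) := by
      rw [heε, hwε, hl]; ring
    rw [h3, h4] at h
    exact le_of_mul_le_mul_right h (by positivity)
  have hκ : (min 1 α / 324) / (M ^ 2 * l ^ 6) * (nn / (1 + nn)) ≤ ε ^ 2 := by
    have hq : nn / (1 + nn) ≤ 1 := by
      rw [div_le_one (by linarith)]; linarith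
    have hq2 : nn / (1 + nn) ≤ nn := div_le_self hnn (by linarith)
    have hmin0 : 0 < min 1 α := lt_min one_pos hα
    have hc0 : 0 < (min 1 α / 324) / (M ^ 2 * l ^ 6) := by positivity
    rcases le_total (1 / (M * l ^ 3)) ε with hc | hc
    · have h5 : (1 / (M * l ^ 3)) ^ 2 ≤ ε ^ 2 := pow_le_pow_left₀ (by positivity) hc 2
      have h6 : (min 1 α / 324) / (M ^ 2 * l ^ 6) ≤ (1 / (M * l ^ 3)) ^ 2 := by
        have h7 : (1 / (M * l ^ 3)) ^ 2 = 1 / (M ^ 2 * l ^ 6) := by
          field_simp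
        rw [h7]
        apply div_le_div_of_nonneg_right _ (by positivity)
        have := min_le_left 1 α
        linarith
      calc (min 1 α / 324) / (M ^ 2 * l ^ 6) * (nn / (1 + nn)) ≤
          (min 1 α / 324) / (M ^ 2 * l ^ 6) * 1 := mul_le_mul_of_nonneg_left hq hc0.le
        _ ≤ ε ^ 2 := by rw [mul_one]; exact h6.trans h5
    · have hMl : 0 < M * l ^ 3 := by positivity
      have hc' : ε * (M * l ^ 3) ≤ 1 := by
        rw [le_div_iff₀ hMl] at hc; exact hc
      have hε1 : ε ≤ 1 := by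
        have h8 : 1 ≤ M * l ^ 3 := one_le_mul_of_one_le_of_one_le hM (one_le_pow₀ hl3)
        have h9 : ε * 1 ≤ ε * (M * l ^ 3) := mul_le_mul_of_nonneg_left h8 hε0
        linarith
      have hAS : 0 ≤ A * S := mul_nonneg hA0 hS
      -- the last term
      have h10 : M * (A * S * (l * ε / Real.pi)) ≤ A * S / l ^ 2 / 2 := by
        have h11 : M * (A * S * (l * ε / Real.pi)) =
            (ε * (M * l ^ 3)) * (A * S / l ^ 2 / Real.pi) := by field_simp
        rw [h11]
        have h12 : 0 ≤ A * S / l ^ 2 / Real.pi := by positivity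
        have h13 : A * S / l ^ 2 / Real.pi ≤ A * S / l ^ 2 / 2 :=
          div_le_div_of_nonneg_left (by positivity) (by norm_num) (by linarith)
        calc (ε * (M * l ^ 3)) * (A * S / l ^ 2 / Real.pi) ≤ 1 * (A * S / l ^ 2 / Real.pi) :=
              mul_le_mul_of_nonneg_right hc' h12
          _ ≤ A * S / l ^ 2 / 2 := by rw [one_mul]; exact h13
      have h14 : ε ^ 2 ≤ ε := by nlinarith
      have h15 : A * S / l ^ 2 / 2 ≤ M * (9 * ε) := by
        have h16 : M * (3 * ε ^ 2 + 6 * ε) ≤ M * (9 * ε) :=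
          mul_le_mul_of_nonneg_left (by linarith) (by linarith)
        have h17 : M * (3 * ε ^ 2 + 6 * ε + A * S * (l * ε / Real.pi)) =
          M * (3 * ε ^ 2 + 6 * ε) + M * (A * S * (l * ε / Real.pi)) := by ring
        linarith
      have h18 : A * S ≤ 18 * M * l ^ 3 * ε := by
        have h19 : A * S / l ^ 2 ≤ 18 * M * ε := by linarith
        rw [div_le_iff₀ (by positivity)] at h19
        have h20 : 18 * M * ε * l ^ 2 ≤ 18 * M * ε * l ^ 3 :=
          mul_le_mul_of_nonneg_left (pow_le_pow_right₀ hl3 (by norm_num)) (by positivity)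
        linarith
      have h21 : (A * S) ^ 2 ≤ (18 * M * l ^ 3 * ε) ^ 2 := pow_le_pow_left₀ hAS h18 2
      have h22 : min 1 α * nn ≤ (A * S) ^ 2 := by
        rw [mul_pow, hA2]
        exact mul_le_mul (min_le_right _ _) hSn hnn hα.le
      have h23 : (min 1 α / 324) / (M ^ 2 * l ^ 6) * (nn / (1 + nn)) ≤
          (min 1 α / 324) / (M ^ 2 * l ^ 6) * nn := mul_le_mul_of_nonneg_left hq2 hc0.le
      refine h23.trans ?_
      have h24 : (min 1 α / 324) / (M ^ 2 * l ^ 6) * nn = (min 1 α * nn) / (324 * (M ^ 2 * l ^ 6)) := by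
        field_simp
      rw [h24, div_le_iff₀ (by positivity)]
      calc min 1 α * nn ≤ (18 * M * l ^ 3 * ε) ^ 2 := h22.trans h21
        _ = ε ^ 2 * (324 * (M ^ 2 * l ^ 6)) := by ring
  calc (min 1 α / 324) / (M ^ 2 * l ^ 6) * cut ^ 2 * (nn / (1 + nn)) * m =
      (min 1 α / 324) / (M ^ 2 * l ^ 6) * (nn / (1 + nn)) * (cut ^ 2 * m) := by ring
    _ ≤ ε ^ 2 * (cut ^ 2 * m) := mul_le_mul_of_nonneg_right hκ (by positivity)
    _ = e := by rw [heε]; ring

theorem nn_le {ι : Type} [Fintype ι] (y : ι → ℝ) : nn y ≤ (∑ i, |y i|) ^ 2 := by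
  unfold nn
  calc ∑ i, y i ^ 2 = ∑ i, |y i| * |y i| := by
        apply Finset.sum_congr rfl
        intro i _
        rw [abs_mul_abs_self]; ring
    _ ≤ ∑ i, |y i| * (∑ j, |y j|) := by
        apply Finset.sum_le_sum
        intro i _
        exact mul_le_mul_of_nonneg_left
          (Finset.single_le_sum (f := fun j => |y j|) (fun j _ => abs_nonneg _) (Finset.mem_univ i))
          (abs_nonneg _)
    _ = (∑ i, |y i|) ^ 2 := by rw [← Finset.sum_mul]; ring

theorem am_om {cut L : ℝ} (hL : 0 < L) (i : Mode cut L) (hi : 2 * Real.pi / L ≤ om i) :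
    1 / L ^ 2 ≤ 1 / 2 * (am i * om i) := by
  have hpi := Real.pi_gt_three
  have ho : 0 < om i := lt_of_lt_of_le (by positivity) hi
  have h1 : am i * om i = Real.sqrt (om i / L ^ 3) := by
    unfold am
    rw [Real.sqrt_div ho.le, Real.sqrt_mul (by positivity)]
    have h2 : Real.sqrt (om i) ≠ 0 := (Real.sqrt_pos.2 ho).ne'
    have h3 : Real.sqrt (L ^ 3) ≠ 0 := (Real.sqrt_pos.2 (by positivity)).ne'
    have h4 : om i = Real.sqrt (om i) * Real.sqrt (om i) := (Real.mul_self_sqrt ho.le).symm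
    field_simp
    linarith
  rw [h1]
  have h5 : 2 / L ^ 2 ≤ Real.sqrt (om i / L ^ 3) := by
    apply Real.le_sqrt_of_sq_le
    rw [div_pow, le_div_iff₀ (by positivity), div_mul_eq_mul_div, div_le_iff₀ (by positivity)]
    rw [div_le_iff₀ hL] at hi
    have h6 : (4 : ℝ) ≤ om i * L := by linarith
    calc (2 : ℝ) ^ 2 * L ^ 3 = 4 * L ^ 3 := by ring
      _ ≤ (om i * L) * L ^ 3 := mul_le_mul_of_nonneg_right h6 (by positivity)
      _ = om i * (L ^ 2) ^ 2 := by ring
  have h7 : 2 / L ^ 2 = 2 * (1 / L ^ 2) := by ring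
  linarith

theorem mag (h1 : Mg1Stmt) (h2 : CntStmt) : MagStmt := by
  intro α hα
  have hmin0 : 0 < min 1 α := lt_min one_pos hα
  refine ⟨min 1 α / 324, by positivity, ?_, ?_⟩
  · have := min_le_left 1 α
    rw [div_le_one (by norm_num)]
    linarith
  intro cut L P hL hl y phi hphi
  obtain ⟨c4, -, com⟩ := h2 cut L hL hl
  have hpi := Real.pi_gt_three
  have hlpos : 0 < L * cut := by linarith
  have hcut : 0 < cut := (pos_iff_pos_of_mul_pos hlpos).1 hL
  set M : ℝ := (Fintype.card (Mode cut L) : ℝ) with hM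
  have hM1 : 1 ≤ M := by
    rw [hM]
    exact_mod_cast (by omega : 1 ≤ Fintype.card (Mode cut L))
  set S : ℝ := ∑ i, |y i| with hS
  have hS0 : 0 ≤ S := Finset.sum_nonneg fun i _ => abs_nonneg _
  have hnn0 : 0 ≤ nn y := Finset.sum_nonneg fun i _ => sq_nonneg _
  -- the scalar statement
  have sc : ∀ f : X3 → ℂ, CS f → (min 1 α / 324) / (M ^ 2 * (L * cut) ^ 6) * cut ^ 2 *
      (nn y / (1 + nn y)) * (∫ x, ‖f x‖ ^ 2) ≤ ∫ x, ∑ j, ‖cv (VV α P y) j f x‖ ^ 2 := by
    intro f hf
    set m : ℝ := ∫ x, ‖f x‖ ^ 2 with hm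
    set e : ℝ := ∫ x, ∑ j, ‖cv (VV α P y) j f x‖ ^ 2 with he
    have hm0 : 0 ≤ m := integral_nonneg fun x => sq_nonneg _
    have he0 : 0 ≤ e := integral_nonneg fun x => Finset.sum_nonneg fun j _ => sq_nonneg _
    have hw0 : 0 ≤ Real.sqrt (m * e) := Real.sqrt_nonneg _
    have hww : Real.sqrt (m * e) ^ 2 = m * e := Real.sq_sqrt (mul_nonneg hm0 he0)
    set w : ℝ := Real.sqrt (m * e) with hw
    have hone : ∀ i : Mode cut L, Real.sqrt α * |y i| * m / L ^ 2 ≤
        3 * (e + 2 * cut * w) + Real.sqrt α * S * cut ^ 2 * (L * w / Real.pi) := by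
      intro i
      have h3 := h1 α cut L P hα hL hl y f hf w hw0 hww.ge i
      have h4 := am_om hL i (com i).1
      have h5 : 0 ≤ Real.sqrt α * |y i| * m := by positivity
      calc Real.sqrt α * |y i| * m / L ^ 2 = (1 / L ^ 2) * (Real.sqrt α * |y i| * m) := by ring
        _ ≤ (1 / 2 * (am i * om i)) * (Real.sqrt α * |y i| * m) := mul_le_mul_of_nonneg_right h4 h5
        _ = 1 / 2 * Real.sqrt α * (am i * om i) * |y i| * m := by ring
        _ ≤ _ := h3
    have hsum : Real.sqrt α * S * m / L ^ 2 ≤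
        M * (3 * (e + 2 * cut * w) + Real.sqrt α * S * cut ^ 2 * (L * w / Real.pi)) := by
      have h6 := Finset.sum_le_sum fun i (_ : i ∈ (Finset.univ : Finset (Mode cut L))) => hone i
      rw [Finset.sum_const, Finset.card_univ, nsmul_eq_mul, ← hM] at h6
      have h7 : ∑ i, Real.sqrt α * |y i| * m / L ^ 2 = Real.sqrt α * S * m / L ^ 2 := by
        rw [hS, ← Finset.sum_div, ← Finset.sum_mul, ← Finset.mul_sum]
      rw [h7] at h6
      exact h6
    exact mag_num α cut L M S (nn y) m e w (L * cut) hα hL rfl hl hM1 hS0 hnn0 (nn_le y) hm0 he0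
      hw0 hww hsum
  -- sum over the spin
  have hfs : ∀ s, CS fun x => phi x s := hphi
  have i1 : ∀ s, Integrable fun x => ‖phi x s‖ ^ 2 := fun s =>
    int_sq _ (hfs s).1.continuous (hfs s).2
  have i2 : ∀ (s : Fin 2) (j : Fin 3),
      Integrable fun x => ‖cv (VV α P y) j (fun x => phi x s) x‖ ^ 2 := fun s j =>
    int_sq _ (cv_cont _ j (VV_cont α P y j) _ (hfs s)).1 (cv_cont _ j (VV_cont α P y j) _ (hfs s)).2
  have e1 : ∫ x, nsq (phi x) = ∑ s, ∫ x, ‖phi x s‖ ^ 2 := by
    unfold nsq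
    exact integral_finsetSum _ fun s _ => i1 s
  have e2 : ∫ x, ∑ j, nsq (cov (VV α P y) j phi x) =
      ∑ s, ∫ x, ∑ j, ‖cv (VV α P y) j (fun x => phi x s) x‖ ^ 2 := by
    rw [← integral_finsetSum _ fun s _ => integrable_finsetSum _ fun j _ => i2 s j]
    apply integral_congr_ae
    filter_upwards with x
    unfold nsq
    rw [Finset.sum_comm]
    rfl
  rw [e1, e2, Finset.mul_sum]
  exact Finset.sum_le_sum fun s _ => sc _ (hfs s)

end Pool.Agent.MBX.H41
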