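import Pool.Agent.MBX.Stmts

/-! MBX, row VI1 (helper41): the virial identity. -/

set_option autoImplicit false

open MeasureTheory Complex ProbabilityTheory

namespace Pool.Agent.MBX.H41

open Pool.Agent.Helper49_Pauli
open Pool.Agent.Loc (γn PB)

/-! ### the pairing -/

theorem pair_comm (u v : S2) : pair u v = pair v u := by
  unfold pair
  rw [← Complex.conj_re (∑ s, (starRingEnd ℂ) (u s) * v s), map_sum]
  congr 1
  apply Finset.sum_congr rfl
  intro s _
  rw [map_mul, Complex.conj_conj, mul_comm]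

theorem pair_add_left (u v w : S2) : pair (u + v) w = pair u w + pair v w := by
  unfold pair
  rw [← Complex.add_re, ← Finset.sum_add_distrib]
  congr 1
  apply Finset.sum_congr rfl
  intro s _
  rw [Pi.add_apply, map_add, add_mul]

theorem pair_smul_left (r : ℝ) (u w : S2) : pair ((r : ℂ) • u) w = r * pair u w := by
  unfold pair
  rw [← Complex.re_ofReal_mul, Finset.mul_sum]
  congr 1
  apply Finset.sum_congr rfl
  intro s _
  rw [Pi.smul_apply, smul_eq_mul, map_mul, Complex.conj_ofReal, mul_assoc]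

theorem pair_zero_left (w : S2) : pair 0 w = 0 := by
  unfold pair
  simp

theorem pair_sum_left {κ : Type} (s : Finset κ) (r : κ → ℝ) (z : κ → S2) (w : S2) :
    pair (∑ i ∈ s, (r i : ℂ) • z i) w = ∑ i ∈ s, r i * pair (z i) w := by
  classical
  induction s using Finset.induction_on with
  | empty => simp [pair_zero_left]
  | insert a s ha ih =>
    rw [Finset.sum_insert ha, Finset.sum_insert ha, pair_add_left, pair_smul_left, ih]

/-! ### the vector potential is linear in the field configuration -/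

theorem VV_lin {cut L : ℝ} (alpha : ℝ) (P : Polarization L) (v : Mode cut L → ℝ) (x : X3) :
    VV alpha P v x = ∑ i, v i • VV alpha P (Pi.single i 1) x := by
  funext j
  rw [Finset.sum_apply]
  unfold VV
  have h : ∀ i : Mode cut L, (v i • fun j => Real.sqrt alpha * ∑ i' : Mode cut L,
      (Pi.single i 1 : Mode cut L → ℝ) i' * (am i' * Real.cos (dot (kk i') x - tt i') *
        P.e i'.1 i'.2 j)) j =
      Real.sqrt alpha * (v i * (am i * Real.cos (dot (kk i) x - tt i) * P.e i.1 i.2 j)) := by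
    intro i
    rw [Pi.smul_apply, smul_eq_mul, Finset.sum_eq_single i]
    · rw [Pi.single_eq_same]; ring
    · intro b _ hb
      rw [Pi.single_eq_of_ne hb, zero_mul]
    · intro h; exact absurd (Finset.mem_univ i) h
  rw [Finset.sum_congr rfl fun i _ => h i, ← Finset.mul_sum]

theorem sl_VV {cut L : ℝ} (alpha : ℝ) (P : Polarization L) (v : Mode cut L → ℝ) (x : X3) (u : S2) :
    sl (VV alpha P v x) u = ∑ i, (v i : ℂ) • sl (VV alpha P (Pi.single i 1) x) u := by
  rw [VV_lin, sl_sum, LinearMap.sum_apply]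
  apply Finset.sum_congr rfl
  intro i _
  rw [sl_smul, LinearMap.smul_apply]

/-! ### wave functions -/

section wave

variable {ι : Type} [Fintype ι] [DecidableEq ι]

/-- the pairing of two wave functions as an element of `SS` -/
def qq (a b : (ι → ℝ) → X3 → S2) : (ι → ℝ) → X3 → ℂ := fun y x =>
  ∑ s, (starRingEnd ℂ) (a y x s) * b y x s

theorem qq_mem (h : SclStmt) {a b : (ι → ℝ) → X3 → S2} (ha : WW a) (hb : WW b) :
    qq a b ∈ SS ι := by
  obtain ⟨h1, h2, _, _⟩ := h ι
  have e : qq a b = (fun y x => (starRingEnd ℂ) (a y x 0) * b y x 0) +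
      (fun y x => (starRingEnd ℂ) (a y x 1) * b y x 1) := by
    funext y x
    simp [qq, Fin.sum_univ_two]
  rw [e]
  exact Submodule.add_mem _ (h1 _ (h2 _ (ha 0)) _ (hb 0)) (h1 _ (h2 _ (ha 1)) _ (hb 1))

theorem pair_NF (h : SclStmt) (hN : SnfStmt) {a b : (ι → ℝ) → X3 → S2} (ha : WW a) (hb : WW b) :
    NF (fun y x => pair (a y x) (b y x)) :=
  (hN ι (qq a b) (qq_mem h ha hb)).1

theorem dY_qq (hS : SdyStmt) {a b : (ι → ℝ) → X3 → S2} (ha : WW a) (hb : WW b) (i : ι)
    (y : ι → ℝ) (x : X3) : (dY i (qq a b) y x).re =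
      pair (dY2 i a y x) (b y x) + pair (a y x) (dY2 i b y x) := by
  have h1 : HasDerivAt (fun t : ℝ => qq a b (Function.update y i t) x)
      (∑ s, ((starRingEnd ℂ) (dY i (fun y x => a y x s) y x) * b y x s +
        (starRingEnd ℂ) (a y x s) * dY i (fun y x => b y x s) y x)) (y i) := by
    unfold qq
    apply HasDerivAt.fun_sum
    intro s _
    have ha1 := (hS ι _ (ha s) i).2 y x
    have hb1 := (hS ι _ (hb s) i).2 y x
    have hc : HasDerivAt (fun t : ℝ => (starRingEnd ℂ) (a (Function.update y i t) x s))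
        ((starRingEnd ℂ) (dY i (fun y x => a y x s) y x)) (y i) := ha1.star
    have hd := hc.fun_mul hb1
    simp only [Function.update_eq_self] at hd
    exact hd
  have h2 : dY i (qq a b) y x = ∑ s, ((starRingEnd ℂ) (dY i (fun y x => a y x s) y x) * b y x s +
        (starRingEnd ℂ) (a y x s) * dY i (fun y x => b y x s) y x) := h1.deriv
  rw [h2, Finset.sum_add_distrib, Complex.add_re]
  rfl

theorem II_add (hI : NfiStmt) {F G : (ι → ℝ) → X3 → ℝ} (hF : NF F) (hG : NF G) :
    II (fun y x => F y x + G y x) = II F + II G :=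
  integral_add (hI ι F hF) (hI ι G hG)

theorem II_sum (hI : NfiStmt) {κ : Type} (s : Finset κ) {F : κ → (ι → ℝ) → X3 → ℝ}
    (hF : ∀ i ∈ s, NF (F i)) : II (fun y x => ∑ i ∈ s, F i y x) = ∑ i ∈ s, II (F i) :=
  integral_finsetSum s fun i hi => hI ι (F i) (hF i hi)

omit [DecidableEq ι] in
theorem II_neg {F : (ι → ℝ) → X3 → ℝ} : II (fun y x => (-1) * F y x) = -II F := by
  have := integral_const_mul (μ := (γn ι).prod (volume : Measure X3)) (-1 : ℝ)
    (fun z : (ι → ℝ) × X3 => F z.1 z.2)
  unfold II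
  rw [this]
  ring

end wave

theorem vi1 (hSCL : SclStmt) (hSDY : SdyStmt) (hSDX : SdxStmt) (hSNF : SnfStmt) (hNFC : NfcStmt)
    (hNFI : NfiStmt) (hFUB : FubStmt) (hSTE : SteStmt) (hSYD : SydStmt) (hCRL : CrlStmt)
    (hDOY : DoyStmt) : Vi1Stmt := by
  intro cut L alpha P psi hpsi v v' hv hv' hder
  obtain ⟨hD, -, hdY, hcom⟩ := hDOY cut L alpha P psi hpsi
  have hcs : ∀ {a : (Mode cut L → ℝ) → X3 → S2}, WW a → ∀ y, CS2 (a y) := fun ha y s =>
    (hSDX (Mode cut L) _ (ha s)).1 y
  have nfa : ∀ i, NF fun y x => v y i * pair (DD alpha P psi y x) (dY2 i psi y x) := fun i =>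
    (hNFC (Mode cut L) _ (pair_NF hSCL hSNF hD (hdY i))).2.1 _ (hv i)
  have wd : ∀ i, WW (dY2 i (DD alpha P psi)) := fun i s =>
    (hSDY (Mode cut L) _ (hD s) i).1
  have wdd : ∀ i, WW (DD alpha P (dY2 i psi)) := fun i =>
    (hDOY cut L alpha P (dY2 i psi) (hdY i)).1
  have nfb : ∀ i, NF fun y x => v y i * pair (DD alpha P (dY2 i psi) y x) (psi y x) := fun i =>
    (hNFC (Mode cut L) _ (pair_NF hSCL hSNF (wdd i) hpsi)).2.1 _ (hv i)
  have nfc : ∀ i, NF fun y x => v y i * pair (dY2 i (DD alpha P psi) y x) (psi y x) := fun i =>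
    (hNFC (Mode cut L) _ (pair_NF hSCL hSNF (wd i) hpsi)).2.1 _ (hv i)
  have hvd : ∀ i, PB fun y : Mode cut L → ℝ => v' y i - y i * v y i := fun i =>
    (hv' i).sub ((Pool.Agent.Loc.PB.coord i).mul (hv i))
  have nfd : ∀ i, NF fun y x => (v' y i - y i * v y i) * pair (DD alpha P psi y x) (psi y x) :=
    fun i => (hNFC (Mode cut L) _ (pair_NF hSCL hSNF hD hpsi)).2.1 _ (hvd i)
  -- the symmetry of the Dirac operator
  have hsym : ∀ i, II (fun y x => v y i * pair (DD alpha P (dY2 i psi) y x) (psi y x)) =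
      II (fun y x => v y i * pair (DD alpha P psi y x) (dY2 i psi y x)) := by
    intro i
    apply (hFUB (Mode cut L) _ _ (nfb i) (nfa i)).1
    intro y
    rw [integral_const_mul, integral_const_mul]
    congr 1
    have h1 := hSYD (VV alpha P y) (hCRL cut L alpha P y).1 (dY2 i psi y) (psi y)
      (hcs (hdY i) y) (hcs hpsi y)
    have h2 : ∫ x, pair (DD alpha P (dY2 i psi) y x) (psi y x) =
        ∫ x, pair (dY2 i psi y x) (DD alpha P psi y x) := h1
    rw [h2]
    apply integral_congr_ae
    filter_upwards with x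
    exact pair_comm _ _
  -- Gaussian integration by parts
  have hste : ∀ i, II (fun y x => v y i * pair (dY2 i (DD alpha P psi) y x) (psi y x)) +
      II (fun y x => v y i * pair (DD alpha P psi y x) (dY2 i psi y x)) +
      II (fun y x => (v' y i - y i * v y i) * pair (DD alpha P psi y x) (psi y x)) = 0 := by
    intro i
    have h1 := hSTE (Mode cut L) (qq (DD alpha P psi) psi) (qq_mem hSCL hD hpsi) i
      (fun y => v y i) (fun y => v' y i) (hv i) (hv' i) (hder i)
    have nab := (hNFC (Mode cut L) _ (nfc i)).1 _ (nfa i)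
    rw [← II_add hNFI (nfc i) (nfa i), ← II_add hNFI nab.1 (nfd i), ← h1]
    congr 1
    funext y x
    rw [dY_qq hSDY hD hpsi i y x]
    have h2 : (qq (DD alpha P psi) psi y x).re = pair (DD alpha P psi y x) (psi y x) := rfl
    rw [h2]
    ring
  -- the commutator
  have hcm : ∀ i, (fun (y : Mode cut L → ℝ) x =>
      v y i * pair (sl (VV alpha P (Pi.single i 1) x) (psi y x)) (psi y x)) =
      fun y x => v y i * pair (dY2 i (DD alpha P psi) y x) (psi y x) +
        (-1) * (v y i * pair (DD alpha P (dY2 i psi) y x) (psi y x)) := by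
    intro i
    funext y x
    rw [hcom i y x, pair_add_left]
    ring
  have nfm : ∀ i, NF fun (y : Mode cut L → ℝ) x =>
      (-1 : ℝ) * (v y i * pair (DD alpha P (dY2 i psi) y x) (psi y x)) := fun i =>
    (hNFC (Mode cut L) _ (nfb i)).2.1 _ (Pool.Agent.Loc.PB.const (-1))
  have nfs : ∀ i, NF (fun (y : Mode cut L → ℝ) x =>
      v y i * pair (sl (VV alpha P (Pi.single i 1) x) (psi y x)) (psi y x)) := by
    intro i
    rw [hcm i]
    exact ((hNFC (Mode cut L) _ (nfc i)).1 _ (nfm i)).1
  have hone : ∀ i, II (fun (y : Mode cut L → ℝ) x =>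
      v y i * pair (sl (VV alpha P (Pi.single i 1) x) (psi y x)) (psi y x)) =
      -(2 * II (fun y x => v y i * pair (DD alpha P psi y x) (dY2 i psi y x))) -
        II (fun y x => (v' y i - y i * v y i) * pair (DD alpha P psi y x) (psi y x)) := by
    intro i
    rw [hcm i, II_add hNFI (nfc i) (nfm i), II_neg, hsym i]
    have := hste i
    linarith
  have hL : II (fun y x => pair (psi y x) (sl (VV alpha P (v y) x) (psi y x))) =
      ∑ i, II (fun (y : Mode cut L → ℝ) x =>
        v y i * pair (sl (VV alpha P (Pi.single i 1) x) (psi y x)) (psi y x)) := by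
    rw [← II_sum hNFI Finset.univ fun i _ => nfs i]
    congr 1
    funext y x
    rw [pair_comm, sl_VV, pair_sum_left]
  have hR1 : II (fun y x => ∑ i, v y i * pair (DD alpha P psi y x) (dY2 i psi y x)) =
      ∑ i, II (fun y x => v y i * pair (DD alpha P psi y x) (dY2 i psi y x)) :=
    II_sum hNFI Finset.univ fun i _ => nfa i
  have hR2 : II (fun y x => (∑ i, (v' y i - y i * v y i)) * pair (DD alpha P psi y x) (psi y x)) =
      ∑ i, II (fun y x => (v' y i - y i * v y i) * pair (DD alpha P psi y x) (psi y x)) := by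
    rw [← II_sum hNFI Finset.univ fun i _ => nfd i]
    congr 1
    funext y x
    rw [Finset.sum_mul]
  rw [hL, hR1, hR2, Finset.mul_sum, ← Finset.sum_neg_distrib, ← Finset.sum_sub_distrib]
  exact Finset.sum_congr rfl fun i _ => hone i

end Pool.Agent.MBX.H41
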